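import Pool.Agent.H93.HQ.Targets

namespace Pool.Agent.H93.HQ.K1
open MeasureTheory Set Filter Topology Pool.Agent.H80.HS Pool.Agent.H93.HQ
open scoped ContDiff ENNReal

theorem pf_K1 (h : U_POL) : U_K1 := by
  intro n hn p ρ hp hρ
  have hmN : Measurable (N : H n → ℝ) := continuous_N.measurable
  have hS : MeasurableSet {x : H n | N x < ρ} := hmN measurableSet_Iio
  let f : ℝ → ℝ≥0∞ := (Iio ρ).indicator (fun r => ENNReal.ofReal (r ^ (-(2 * (n : ℝ) + 1))))
  have hf : Measurable f := by
    refine Measurable.indicator ?_ measurableSet_Iio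
    fun_prop
  have h1 : ∫⁻ x : H n in {x | N x < ρ}, ENNReal.ofReal (ker p x) =
      ∫⁻ x : H n, ENNReal.ofReal (al x ^ (p - 1)) * f (N x) := by
    rw [← lintegral_indicator hS]
    apply lintegral_congr
    intro x
    by_cases hx : N x < ρ
    · have h2 : x ∈ {x : H n | N x < ρ} := hx
      have h3 : N x ∈ Iio ρ := hx
      rw [Set.indicator_of_mem h2]
      simp only [f, Set.indicator_of_mem h3]
      rw [← ENNReal.ofReal_mul (Real.rpow_nonneg (al_nonneg x) _), mul_comm]
      rfl
    · have h2 : x ∉ {x : H n | N x < ρ} := hx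
      have h3 : N x ∉ Iio ρ := hx
      rw [Set.indicator_of_notMem h2]
      simp only [f, Set.indicator_of_notMem h3]
      simp
  rw [h1, h n hn (p - 1) (by linarith) f hf]
  have h4 : ∫⁻ r in Ioi (0 : ℝ), f r * ENNReal.ofReal (r ^ (2 * (n : ℝ) + 1)) =
      ∫⁻ r in Ioo 0 ρ, 1 := by
    rw [← lintegral_indicator measurableSet_Ioi, ← lintegral_indicator measurableSet_Ioo]
    apply lintegral_congr
    intro r
    by_cases hr0 : 0 < r
    · have h2 : r ∈ Ioi (0 : ℝ) := hr0
      rw [Set.indicator_of_mem h2]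
      by_cases hr : r < ρ
      · have h3 : r ∈ Iio ρ := hr
        have h5 : r ∈ Ioo 0 ρ := ⟨hr0, hr⟩
        rw [Set.indicator_of_mem h5]
        simp only [f, Set.indicator_of_mem h3]
        rw [← ENNReal.ofReal_mul (Real.rpow_nonneg hr0.le _), ← Real.rpow_add hr0]
        simp
      · have h3 : r ∉ Iio ρ := hr
        have h5 : r ∉ Ioo 0 ρ := fun h => hr h.2
        rw [Set.indicator_of_notMem h5]
        simp only [f, Set.indicator_of_notMem h3]
        simp
    · have h2 : r ∉ Ioi (0 : ℝ) := hr0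
      have h5 : r ∉ Ioo 0 ρ := fun h => hr0 h.1
      rw [Set.indicator_of_notMem h2, Set.indicator_of_notMem h5]
  rw [h4, setLIntegral_one, Real.volume_Ioo, sub_zero, ← ENNReal.ofReal_mul]
  exact (sg_pos hn (by linarith)).le

end Pool.Agent.H93.HQ.K1
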