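import Pool.Agent.H80.HS.Targets

/-!
# The horizontal Sobolev constant for all exponents: definitions and basic facts

`Q = 2 n + 2`, `mz p = |z|`, `N p = (|z|^4 + t^2)^(1/4)`, `al p = |z| / N`.
-/

namespace Pool.Agent.H93.HQ
open MeasureTheory Set Pool.Agent.H80.HS
open scoped ContDiff ENNReal

/-- `|z|^2`. -/
noncomputable def sq {n : ℕ} (p : H n) : ℝ := ‖p.1‖ ^ 2 + ‖p.2.1‖ ^ 2

/-- `|z|`. -/
noncomputable def mz {n : ℕ} (p : H n) : ℝ := Real.sqrt (sq p)

/-- `|z|^4 + t^2`. -/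
noncomputable def N4 {n : ℕ} (p : H n) : ℝ := sq p ^ 2 + p.2.2 ^ 2

/-- The gauge `(|z|^4 + t^2)^(1/4)`. -/
noncomputable def N {n : ℕ} (p : H n) : ℝ := Real.sqrt (Real.sqrt (N4 p))

/-- `|z| / N`, the length of the horizontal gradient of `N`. -/
noncomputable def al {n : ℕ} (p : H n) : ℝ := mz p / N p

/-- The dilations `(z, t) ↦ (r z, r^2 t)`. -/
noncomputable def dil {n : ℕ} (r : ℝ) (p : H n) : H n := (r • p.1, r • p.2.1, r ^ 2 * p.2.2)

/-- The rotations `z ↦ exp (- i θ) z`. -/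
noncomputable def rot {n : ℕ} (θ : ℝ) (p : H n) : H n :=
  (Real.cos θ • p.1 + Real.sin θ • p.2.1, -Real.sin θ • p.1 + Real.cos θ • p.2.1, p.2.2)

/-- The group law. -/
noncomputable def mul {n : ℕ} (a b : H n) : H n :=
  (a.1 + b.1, a.2.1 + b.2.1,
    a.2.2 + b.2.2 + 2 * (inner ℝ a.2.1 b.1 - inner ℝ a.1 b.2.1))

/-- The constant of the polar formula with weight `(|z| / N) ^ s`. -/
noncomputable def sg (n : ℕ) (s : ℝ) : ℝ :=
  2 * Real.pi ^ ((n : ℝ) + 1 / 2) / Real.Gamma n *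
    (Real.Gamma ((2 * n + s) / 4) / Real.Gamma ((2 * n + 2 + s) / 4))

/-- The kernel `N^(1-Q) (|z|/N)^(p-1)`. -/
noncomputable def ker {n : ℕ} (p : ℝ) (x : H n) : ℝ :=
  N x ^ (-(2 * (n : ℝ) + 1)) * al x ^ (p - 1)

/-- The horizontal gradient of `u`, restricted to the band `a < ‖u‖ < b`. -/
noncomputable def bd {n : ℕ} {F : Type*} [NormedAddCommGroup F] [NormedSpace ℝ F]
    (u : H n → F) (a b : ℝ) (x : H n) : ℝ≥0∞ :=
  {y : H n | a < ‖u y‖ ∧ ‖u y‖ < b}.indicator (fun y => ENNReal.ofReal (grad u y)) x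

/-- The constant of the capacity inequality. -/
noncomputable def DD (n : ℕ) (p B : ℝ) : ℝ :=
  (sg n p)⁻¹ * ((sg n p * (p - 1) / (2 * n + 2 - p)) ^ (1 - 1 / p) *
      B ^ ((2 * n + 2 - p) / ((2 * n + 2) * p)) +
    sg n (p - 1) * B ^ (-(1 / (2 * (n : ℝ) + 2))))

section
variable {n : ℕ}

lemma sq_nonneg' (p : H n) : 0 ≤ sq p := by unfold sq; positivity
lemma mz_nonneg (p : H n) : 0 ≤ mz p := Real.sqrt_nonneg _
lemma mz_sq (p : H n) : mz p ^ 2 = sq p := Real.sq_sqrt (sq_nonneg' p)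
lemma N4_nonneg (p : H n) : 0 ≤ N4 p := by unfold N4; positivity
lemma N_nonneg (p : H n) : 0 ≤ N p := Real.sqrt_nonneg _
lemma N_sq (p : H n) : N p ^ 2 = Real.sqrt (N4 p) := Real.sq_sqrt (Real.sqrt_nonneg _)
lemma N_pow_four (p : H n) : N p ^ 4 = N4 p := by
  have : N p ^ 4 = (N p ^ 2) ^ 2 := by ring
  rw [this, N_sq, Real.sq_sqrt (N4_nonneg p)]
lemma N_pow_four' (p : H n) : N p ^ 4 = sq p ^ 2 + p.2.2 ^ 2 := N_pow_four p

lemma mz_le_N (p : H n) : mz p ≤ N p := by
  have h1 : mz p ^ 4 ≤ N p ^ 4 := by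
    have : mz p ^ 4 = (mz p ^ 2) ^ 2 := by ring
    rw [this, mz_sq, N_pow_four']
    nlinarith [sq_nonneg p.2.2]
  exact (pow_le_pow_iff_left₀ (mz_nonneg p) (N_nonneg p) (by norm_num)).1 h1

lemma N_pos_of_mz {p : H n} (h : 0 < mz p) : 0 < N p := h.trans_le (mz_le_N p)

lemma al_nonneg (p : H n) : 0 ≤ al p := div_nonneg (mz_nonneg p) (N_nonneg p)
lemma al_le_one (p : H n) : al p ≤ 1 := div_le_one_of_le₀ (mz_le_N p) (N_nonneg p)
lemma ker_nonneg (s : ℝ) (x : H n) : 0 ≤ ker s x :=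
  mul_nonneg (Real.rpow_nonneg (N_nonneg x) _) (Real.rpow_nonneg (al_nonneg x) _)

/-! ### dilations -/

lemma sq_dil (r : ℝ) (p : H n) : sq (dil r p) = r ^ 2 * sq p := by
  simp only [sq, dil, norm_smul, Real.norm_eq_abs, mul_pow, sq_abs]; ring
lemma mz_dil {r : ℝ} (hr : 0 ≤ r) (p : H n) : mz (dil r p) = r * mz p := by
  rw [mz, sq_dil, Real.sqrt_mul (by positivity), Real.sqrt_sq hr, mz]
lemma N4_dil (r : ℝ) (p : H n) : N4 (dil r p) = r ^ 4 * N4 p := by
  simp only [N4, sq_dil]; simp only [dil]; ring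
lemma N_dil {r : ℝ} (hr : 0 ≤ r) (p : H n) : N (dil r p) = r * N p := by
  have h1 : r ^ 4 = (r ^ 2) ^ 2 := by ring
  rw [N, N4_dil, Real.sqrt_mul (by positivity), h1, Real.sqrt_sq (by positivity),
    Real.sqrt_mul (by positivity), Real.sqrt_sq hr, N]
lemma al_dil {r : ℝ} (hr : 0 < r) (p : H n) : al (dil r p) = al p := by
  rw [al, mz_dil hr.le, N_dil hr.le, al, mul_div_mul_left _ _ hr.ne']
lemma dil_dil (r s : ℝ) (p : H n) : dil r (dil s p) = dil (r * s) p := by
  simp only [dil, smul_smul]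
  congr 2
  ring
lemma dil_one (p : H n) : dil 1 p = p := by simp [dil]
lemma dil_inv_dil {r : ℝ} (hr : r ≠ 0) (p : H n) : dil r⁻¹ (dil r p) = p := by
  rw [dil_dil, inv_mul_cancel₀ hr, dil_one]
lemma dil_dil_inv {r : ℝ} (hr : r ≠ 0) (p : H n) : dil r (dil r⁻¹ p) = p := by
  rw [dil_dil, mul_inv_cancel₀ hr, dil_one]

/-! ### rotations -/

lemma rot_add (θ φ : ℝ) (p : H n) : rot θ (rot φ p) = rot (θ + φ) p := by
  simp only [rot, Real.cos_add, Real.sin_add, smul_add, smul_smul, add_smul, sub_smul]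
  refine Prod.ext ?_ (Prod.ext ?_ rfl)
  · simp only
    module
  · simp only
    module
lemma rot_zero (p : H n) : rot 0 p = p := by simp [rot]
lemma rot_two_pi (θ : ℝ) (p : H n) : rot (θ + 2 * Real.pi) p = rot θ p := by
  simp [rot, Real.cos_add_two_pi, Real.sin_add_two_pi]
lemma sq_rot (θ : ℝ) (p : H n) : sq (rot θ p) = sq p := by
  have h := Real.cos_sq_add_sin_sq θ
  simp only [sq, rot]
  rw [@norm_add_sq_real, @norm_add_sq_real]
  simp only [norm_smul, inner_smul_left, inner_smul_right, mul_pow, Real.norm_eq_abs, sq_abs,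
    norm_neg, RCLike.conj_to_real, neg_sq]
  have h1 : ∀ a b c s i : ℝ, c ^ 2 + s ^ 2 = 1 →
      c ^ 2 * a + 2 * (c * (s * i)) + s ^ 2 * b + (s ^ 2 * a + 2 * (-s * (c * i)) + c ^ 2 * b) =
        a + b := by
    intro a b c s i hcs
    linear_combination (a + b) * hcs
  convert h1 (‖p.1‖ ^ 2) (‖p.2.1‖ ^ 2) _ _ (inner ℝ p.1 p.2.1) h using 3 <;> ring_nf
lemma mz_rot (θ : ℝ) (p : H n) : mz (rot θ p) = mz p := by rw [mz, sq_rot, mz]
lemma N4_rot (θ : ℝ) (p : H n) : N4 (rot θ p) = N4 p := by rw [N4, sq_rot, N4]; rfl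
lemma N_rot (θ : ℝ) (p : H n) : N (rot θ p) = N p := by rw [N, N4_rot, N]
lemma al_rot (θ : ℝ) (p : H n) : al (rot θ p) = al p := by rw [al, mz_rot, N_rot, al]
lemma dil_rot (r θ : ℝ) (p : H n) : dil r (rot θ p) = rot θ (dil r p) := by
  simp only [dil, rot, smul_add, smul_smul]
  refine Prod.ext ?_ (Prod.ext ?_ rfl)
  · simp only [mul_comm r]
  · simp only [mul_comm r, neg_mul, neg_smul, smul_neg]

/-! ### continuity and measurability -/

lemma continuous_sq : Continuous (sq : H n → ℝ) := by unfold sq; fun_prop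
lemma continuous_mz : Continuous (mz : H n → ℝ) := by
  have := continuous_sq (n := n); unfold mz; fun_prop
lemma continuous_N4 : Continuous (N4 : H n → ℝ) := by
  have := continuous_sq (n := n); unfold N4; fun_prop
lemma continuous_N : Continuous (N : H n → ℝ) := by
  have := continuous_N4 (n := n); unfold N; fun_prop
lemma measurable_al : Measurable (al : H n → ℝ) := by
  have h1 := (continuous_mz (n := n)).measurable
  have h2 := (continuous_N (n := n)).measurable
  unfold al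
  exact h1.div h2
lemma measurable_ker (s : ℝ) : Measurable (ker s : H n → ℝ) := by
  have h1 := (continuous_N (n := n)).measurable
  have h2 := measurable_al (n := n)
  unfold ker
  fun_prop
lemma continuous_dil (r : ℝ) : Continuous (dil r : H n → H n) := by unfold dil; fun_prop
lemma continuous_dil' : Continuous (fun q : ℝ × H n => dil q.1 q.2) := by unfold dil; fun_prop
lemma continuous_rot (θ : ℝ) : Continuous (rot θ : H n → H n) := by unfold rot; fun_prop
lemma continuous_rot' : Continuous (fun q : ℝ × H n => rot q.1 q.2) := by unfold rot; fun_prop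
lemma continuous_mul (a : H n) : Continuous (mul a : H n → H n) := by unfold mul; fun_prop
lemma continuous_mul' : Continuous (fun q : H n × H n => mul q.1 q.2) := by
  unfold mul; fun_prop

lemma measurable_bd {F : Type*} [NormedAddCommGroup F] [NormedSpace ℝ F] {u : H n → F}
    (hu : ContDiff ℝ 1 u) (a b : ℝ) : Measurable (bd u a b) := by
  unfold bd
  have h1 : Continuous (fun y => ‖u y‖) := hu.continuous.norm
  refine Measurable.indicator ?_ ?_
  · exact (continuous_grad hu).measurable.ennreal_ofReal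
  · exact (isOpen_lt continuous_const h1).measurableSet.inter
      (isOpen_lt h1 continuous_const).measurableSet

/-! ### the group law -/

lemma mul_zero' (a : H n) : mul a 0 = a := by simp [mul]
lemma zero_mul' (a : H n) : mul 0 a = a := by simp [mul]

lemma sg_pos {n : ℕ} (hn : 1 ≤ n) {s : ℝ} (hs : 0 ≤ s) : 0 < sg n s := by
  have h1 : (0 : ℝ) < n := by exact_mod_cast hn
  unfold sg
  have h2 : 0 < Real.Gamma n := Real.Gamma_pos_of_pos h1
  have h3 : 0 < Real.Gamma ((2 * n + s) / 4) := Real.Gamma_pos_of_pos (by positivity)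
  have h4 : 0 < Real.Gamma ((2 * n + 2 + s) / 4) := Real.Gamma_pos_of_pos (by positivity)
  positivity

end

end Pool.Agent.H93.HQ
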