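import Pool.Agent.H93.HQ.Basic

namespace Pool.Agent.H93.HQ
open MeasureTheory Set Filter Topology Pool.Agent.H80.HS
open scoped ContDiff ENNReal

/-! ### Integration -/

/-- DIL: change of variables for dilations. -/
def U_DIL : Prop := ∀ (n : ℕ) (f : H n → ℝ≥0∞) (r : ℝ), Measurable f → 0 < r →
  ENNReal.ofReal (r ^ (2 * n + 2)) * ∫⁻ x, f (dil r x) = ∫⁻ x, f x

/-- ROT: rotations preserve the measure. -/
def U_ROT : Prop := ∀ (n : ℕ) (f : H n → ℝ≥0∞) (θ : ℝ), Measurable f →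
  ∫⁻ x, f (rot θ x) = ∫⁻ x, f x

/-- TR: left and right translations preserve the measure. -/
def U_TR : Prop := ∀ (n : ℕ) (f : H n → ℝ≥0∞) (y : H n), Measurable f →
  ∫⁻ x, f (mul y x) = ∫⁻ x, f x ∧ ∫⁻ x, f (mul x y) = ∫⁻ x, f x

/-- RAD: a gauge with power growth. -/
def U_RAD : Prop := ∀ (α : Type) [MeasurableSpace α] (μ : Measure α) (g : α → ℝ)
  (w : α → ℝ≥0∞) (d : ℝ) (S : ℝ≥0∞), Measurable g → Measurable w → 0 < d → S ≠ ⊤ →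
  (∀ᵐ x ∂μ, 0 < g x) →
  (∀ r : ℝ, 0 < r → ∫⁻ x in {x | g x < r}, w x ∂μ = S * ENNReal.ofReal (r ^ d)) →
  ∀ f : ℝ → ℝ≥0∞, Measurable f →
    ∫⁻ x, w x * f (g x) ∂μ =
      S * ENNReal.ofReal d * ∫⁻ r in Ioi (0 : ℝ), f r * ENNReal.ofReal (r ^ (d - 1))

/-- PL: polar coordinates in the plane `V n × V n`. -/
def U_PL : Prop := ∀ n : ℕ, 1 ≤ n → ∀ f : ℝ → ℝ≥0∞, Measurable f →
  ∫⁻ z : V n × V n, f (Real.sqrt (‖z.1‖ ^ 2 + ‖z.2‖ ^ 2)) =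
    ENNReal.ofReal (2 * Real.pi ^ n / Real.Gamma n) *
      ∫⁻ r in Ioi (0 : ℝ), f r * ENNReal.ofReal (r ^ (2 * (n : ℝ) - 1))

/-- POL: polar coordinates in the Heisenberg group with weight `(|z|/N)^s`. -/
def U_POL : Prop := ∀ n : ℕ, 1 ≤ n → ∀ s : ℝ, 0 ≤ s → ∀ f : ℝ → ℝ≥0∞, Measurable f →
  ∫⁻ x : H n, ENNReal.ofReal (al x ^ s) * f (N x) =
    ENNReal.ofReal (sg n s) *
      ∫⁻ r in Ioi (0 : ℝ), f r * ENNReal.ofReal (r ^ (2 * (n : ℝ) + 1))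

/-- MZ: almost every point has `z ≠ 0`. -/
def U_MZ : Prop := ∀ n : ℕ, 1 ≤ n → ∀ᵐ x : H n, 0 < mz x

/-- AV: rotation by a variable angle. -/
def U_AV : Prop := ∀ (n : ℕ) (W G : H n → ℝ≥0∞) (c : H n → ℝ), Measurable W → Measurable G →
  Measurable c → (∀ θ x, W (rot θ x) = W x) → (∀ θ x, c (rot θ x) = c x) →
  ∫⁻ x, W x * G (rot (c x) x) = ∫⁻ x, W x * G x

/-! ### The representation formula -/

/-- ONE: a curve which goes from norm `≥ b` to norm `≤ a`. -/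
def U_ONE : Prop := ∀ (F : Type) [NormedAddCommGroup F] [NormedSpace ℝ F] (f g : ℝ → F)
  (a b T : ℝ), 0 < T → a < b → ContinuousOn f (Icc 0 T) → ContinuousOn g (Ioc 0 T) →
  (∀ s ∈ Ioc 0 T, HasDerivAt f (g s) s) → b ≤ ‖f 0‖ → ‖f T‖ ≤ a →
  ENNReal.ofReal (b - a) ≤
    ∫⁻ s in Ioc 0 T, {s | a < ‖f s‖ ∧ ‖f s‖ < b}.indicator (fun s => ENNReal.ofReal ‖g s‖) s

/-- CV: the gradient curves of the gauge are horizontal. -/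
def U_CV : Prop := ∀ (n : ℕ) (F : Type) [NormedAddCommGroup F] [NormedSpace ℝ F]
  (u : H n → F) (x : H n), ContDiff ℝ 1 u → 0 < mz x →
  ∃ g : ℝ → F, ContinuousOn g (Ioi 0) ∧ ∀ s : ℝ, 0 < s →
    HasDerivAt (fun s : ℝ => u (dil s (rot (x.2.2 / sq x * Real.log s) x))) (g s) s ∧
    ‖g s‖ ≤ N x ^ 2 / mz x * grad u (dil s (rot (x.2.2 / sq x * Real.log s) x))

/-- LINE: the inequality along one gradient curve. -/
def U_LINE : Prop := ∀ (n : ℕ) (F : Type) [NormedAddCommGroup F] [NormedSpace ℝ F]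
  (u : H n → F) (x : H n) (a b : ℝ), ContDiff ℝ 1 u → HasCompactSupport u → 0 < mz x →
  0 ≤ a → a < b → b ≤ ‖u 0‖ →
  ENNReal.ofReal (b - a) ≤ ENNReal.ofReal (N x ^ 2 / mz x) *
    ∫⁻ s in Ioi (0 : ℝ), bd u a b (dil s (rot (x.2.2 / sq x * Real.log s) x))

/-- BR: the representation inequality at the origin. -/
def U_BR : Prop := ∀ (n : ℕ), 1 ≤ n → ∀ (F : Type) [NormedAddCommGroup F] [NormedSpace ℝ F]
  (u : H n → F) (p a b : ℝ), ContDiff ℝ 1 u → HasCompactSupport u → 1 ≤ p →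
  0 ≤ a → a < b → b ≤ ‖u 0‖ →
  ENNReal.ofReal (sg n p * (b - a)) ≤ ∫⁻ x, ENNReal.ofReal (ker p x) * bd u a b x

/-- GT: left translations commute with the horizontal gradient. -/
def U_GT : Prop := ∀ (n : ℕ) (F : Type) [NormedAddCommGroup F] [NormedSpace ℝ F]
  (u : H n → F) (y : H n), ContDiff ℝ 1 u → HasCompactSupport u →
  ContDiff ℝ 1 (fun x => u (mul y x)) ∧ HasCompactSupport (fun x => u (mul y x)) ∧
  ∀ x, grad (fun x => u (mul y x)) x = grad u (mul y x)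

/-- BT: the representation inequality at every point. -/
def U_BT : Prop := ∀ (n : ℕ), 1 ≤ n → ∀ (F : Type) [NormedAddCommGroup F] [NormedSpace ℝ F]
  (u : H n → F) (p a b : ℝ), ContDiff ℝ 1 u → HasCompactSupport u → 1 ≤ p →
  0 ≤ a → a < b → ∀ y, b ≤ ‖u y‖ →
  ENNReal.ofReal (sg n p * (b - a)) ≤ ∫⁻ x, ENNReal.ofReal (ker p x) * bd u a b (mul y x)

/-! ### The upper bound -/

/-- K1: the kernel near the origin. -/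
def U_K1 : Prop := ∀ n : ℕ, 1 ≤ n → ∀ p ρ : ℝ, 1 < p → 0 < ρ →
  ∫⁻ x : H n in {x | N x < ρ}, ENNReal.ofReal (ker p x) = ENNReal.ofReal (sg n (p - 1) * ρ)

/-- K2: the kernel far from the origin. -/
def U_K2 : Prop := ∀ n : ℕ, 1 ≤ n → ∀ p ρ : ℝ, 1 < p → p < 2 * n + 2 → 0 < ρ →
  ∫⁻ x : H n in {x | ρ ≤ N x}, ENNReal.ofReal (ker p x) ^ (p / (p - 1)) =
    ENNReal.ofReal (sg n p * ((p - 1) / (2 * n + 2 - p)) *
      ρ ^ (-((2 * (n : ℝ) + 2 - p) / (p - 1))))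

/-- WK: the weak type estimate. -/
def U_WK : Prop := ∀ n : ℕ, 1 ≤ n → ∀ (p B c : ℝ) (G : H n → ℝ≥0∞) (A : Set (H n)),
  1 < p → p < 2 * n + 2 → 0 < B → 0 < c → Measurable G → MeasurableSet A → volume A ≠ ⊤ →
  (∀ y ∈ A, ENNReal.ofReal (sg n p * c) ≤ ∫⁻ x, ENNReal.ofReal (ker p x) * G (mul y x)) →
  ENNReal.ofReal c * volume A ^ ((2 * (n : ℝ) + 2 - p) / ((2 * n + 2) * p)) ≤
    ENNReal.ofReal (DD n p B) * (∫⁻ x, G x ^ p) ^ (1 / p)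

/-- CAP: the capacity inequality for bands. -/
def U_CAP : Prop := ∀ (n : ℕ), 1 ≤ n → ∀ (F : Type) [NormedAddCommGroup F] [NormedSpace ℝ F]
  (u : H n → F) (p B a b : ℝ), ContDiff ℝ 1 u → HasCompactSupport u → 1 < p →
  p < 2 * n + 2 → 0 < B → 0 ≤ a → a < b →
  ENNReal.ofReal (b - a) * volume {x | b ≤ ‖u x‖} ^ ((2 * (n : ℝ) + 2 - p) / ((2 * n + 2) * p)) ≤
    ENNReal.ofReal (DD n p B) * (∫⁻ x, bd u a b x ^ p) ^ (1 / p)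

/-- The upper bound. -/
noncomputable def UB (n : ℕ) (p B : ℝ) : ℝ :=
  ((2 * n + 2) * p / (2 * n + 2 - p) * 2 ^ p * Real.log 2) ^ ((2 * n + 2 - p) / (2 * n + 2)) *
    DD n p B ^ p

/-- ST: the upper bound. -/
def U_ST : Prop := ∀ (n : ℕ), 1 ≤ n → ∀ (F : Type) [NormedAddCommGroup F] [NormedSpace ℝ F]
  (p B : ℝ), 1 < p → p < 2 * n + 2 → 0 < B → SobolevIneq F n p (UB n p B)

/-! ### The lower bound -/

/-- RF: functions of the gauge. -/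
def U_RF : Prop := ∀ (n : ℕ) (χ : ℝ → ℝ), ContDiff ℝ ∞ χ → HasCompactSupport χ →
  tsupport χ ⊆ Ioi 0 →
  ContDiff ℝ ∞ (fun x : H n => ∫ s in Ioi (N x), χ s) ∧
  HasCompactSupport (fun x : H n => ∫ s in Ioi (N x), χ s) ∧
  ∀ x : H n, grad (fun x : H n => ∫ s in Ioi (N x), χ s) x = |χ (N x)| * al x

/-- RC: the one-dimensional inequality for test functions. -/
def U_RC : Prop := ∀ n : ℕ, 1 ≤ n → ∀ p C : ℝ, 1 < p → p < 2 * n + 2 → SobolevIneq ℝ n p C →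
  ∀ χ : ℝ → ℝ, ContDiff ℝ ∞ χ → HasCompactSupport χ → tsupport χ ⊆ Ioi 0 → (∀ r, 0 ≤ χ r) →
  (ENNReal.ofReal (sg n 0) * ∫⁻ r in Ioi (0 : ℝ),
      (∫⁻ s in Ioi r, ENNReal.ofReal (χ s)) ^ ((2 * (n : ℝ) + 2) * p / (2 * n + 2 - p)) *
        ENNReal.ofReal (r ^ (2 * (n : ℝ) + 1))) ^ ((2 * (n : ℝ) + 2 - p) / (2 * n + 2)) ≤
    ENNReal.ofReal (C * sg n p) *
      ∫⁻ r in Ioi (0 : ℝ), ENNReal.ofReal (χ r ^ p * r ^ (2 * (n : ℝ) + 1))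

/-- RI: the one-dimensional inequality. -/
def U_RI : Prop := ∀ n : ℕ, 1 ≤ n → ∀ p C : ℝ, 1 < p → p < 2 * n + 2 → SobolevIneq ℝ n p C →
  ∀ χ : ℝ → ℝ, ContDiffOn ℝ ∞ χ (Ioi 0) → (∀ r, 0 < r → 0 ≤ χ r) →
  (ENNReal.ofReal (sg n 0) * ∫⁻ r in Ioi (0 : ℝ),
      (∫⁻ s in Ioi r, ENNReal.ofReal (χ s)) ^ ((2 * (n : ℝ) + 2) * p / (2 * n + 2 - p)) *
        ENNReal.ofReal (r ^ (2 * (n : ℝ) + 1))) ^ ((2 * (n : ℝ) + 2 - p) / (2 * n + 2)) ≤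
    ENNReal.ofReal (C * sg n p) *
      ∫⁻ r in Ioi (0 : ℝ), ENNReal.ofReal (χ r ^ p * r ^ (2 * (n : ℝ) + 1))

/-- The maximum of `r / (1 + r^(p/(p-1)))`. -/
noncomputable def MX (p : ℝ) : ℝ := (p - 1) ^ (1 - 1 / p) / p

/-- BL1: the two integrals of the Bliss function. -/
def U_BL1 : Prop := ∀ Q p : ℝ, 1 < p → p < Q →
  ∃ J : ℝ, 0 < J ∧ J ≤ p * MX p ^ (Q - 1) ∧
  ∫⁻ r in Ioi (0 : ℝ), ENNReal.ofReal (r ^ (Q - 1) * (1 + r ^ (p / (p - 1))) ^ (-Q)) =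
    ENNReal.ofReal J ∧
  ∫⁻ r in Ioi (0 : ℝ), ENNReal.ofReal (r ^ (Q - 1 + p / (p - 1)) *
      (1 + r ^ (p / (p - 1))) ^ (-Q)) ≤ ENNReal.ofReal (Q * (p - 1) / (Q - p) * J)

/-- BL2: the Bliss function as an integral. -/
def U_BL2 : Prop := ∀ Q p r : ℝ, 1 < p → p < Q → 0 < r →
  ∫⁻ s in Ioi r, ENNReal.ofReal ((Q - p) / (p - 1) * s ^ (p / (p - 1) - 1) *
      (1 + s ^ (p / (p - 1))) ^ (-(Q / p))) =
    ENNReal.ofReal ((1 + r ^ (p / (p - 1))) ^ (-((Q - p) / p)))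

/-- The first lower bound. -/
noncomputable def LB1 (n : ℕ) (p : ℝ) : ℝ :=
  p ^ p / ((2 * n + 2) * (2 * n + 2 - p) ^ (p - 1)) *
    (MX p / (sg n 0 * p)) ^ (p / (2 * n + 2))

/-- LB: lower bound by the Bliss function. -/
def U_LB : Prop := ∀ n : ℕ, 1 ≤ n → ∀ p C : ℝ, 1 < p → p < 2 * n + 2 → SobolevIneq ℝ n p C →
  sg n 0 / sg n p * LB1 n p ≤ C

/-- The second lower bound. -/
noncomputable def LB2 (n : ℕ) (p : ℝ) : ℝ :=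
  (sg n 0 / (2 * n + 2)) ^ ((2 * n + 2 - p) / (2 * n + 2)) *
    2 ^ (-((2 * n + 2 - p) / (p - 1))) * (sg n p)⁻¹ * ((p - 1) / (2 * n + 2 - p)) ^ (p - 1)

/-- LP: lower bound by a truncated power. -/
def U_LP : Prop := ∀ n : ℕ, 1 ≤ n → ∀ p C : ℝ, 1 < p → p < 2 * n + 2 → SobolevIneq ℝ n p C →
  LB2 n p ≤ C

/-! ### Asymptotics -/

/-- SA: the ratio of the two Gamma values. -/
def U_SA : Prop := ∀ x : ℝ, 0 < x →
  1 / Real.sqrt x ≤ Real.Gamma x / Real.Gamma (x + 1 / 2) ∧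
  Real.Gamma x / Real.Gamma (x + 1 / 2) ≤ Real.sqrt (x + 1 / 2) / x

/-- S0: the size of `sg n 0`. -/
def U_S0 : Prop := ∃ A : ℝ, ∀ n : ℕ, 1 ≤ n →
  |Real.log (sg n 0) - n * Real.log (Real.pi * Real.exp 1 / n)| ≤ A * Real.log (n + 1)

/-- S1: comparison of `sg n s` and `sg n 0`. -/
def U_S1 : Prop := ∀ n : ℕ, 1 ≤ n → ∀ s : ℝ, 0 ≤ s → s ≤ 2 * n + 2 →
  sg n s ≤ sg n 0 ∧ sg n 0 ≤ 3 * sg n s

/-- The main term. -/
noncomputable def MM (n : ℕ) (p : ℝ) : ℝ :=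
  (n / (Real.pi * Real.exp 1)) ^ (p / 2) * p ^ p / ((2 * n + 2) * (2 * n + 2 - p) ^ (p - 1))

/-- N1: the lower bound and the main term. -/
def U_N1 : Prop := ∃ A : ℝ, ∀ n : ℕ, 1 ≤ n → ∀ p : ℝ, 1 < p → p < 2 * n + 2 →
  0 < LB1 n p ∧ Real.log (MM n p) - A * p * Real.log (n + 1) / n ≤ Real.log (LB1 n p)

/-- N2: the upper bound for `p ≤ Q - 1`. -/
def U_N2 : Prop := ∃ A : ℝ, ∀ n : ℕ, 1 ≤ n → ∀ p : ℝ, 1 < p → p ≤ 2 * n + 1 →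
  Real.log (((2 * (n : ℝ) + 2) * p / (2 * n + 2 - p) * CC n) ^ p) ≤
    Real.log (MM n p) + A * p * Real.log (n + 1) / n

/-- N3: the upper bound for `p > Q - 1`. -/
def U_N3 : Prop := ∃ A : ℝ, ∀ n : ℕ, 1 ≤ n → ∀ p : ℝ, 2 * n + 1 < p → p < 2 * n + 2 →
  0 < UB n p (sg n 0) ∧
  Real.log (UB n p (sg n 0)) ≤ Real.log (MM n p) + A * p * Real.log (n + 1) / n

/-- M1: the limit of the lower bound. -/
def U_M1 : Prop := ∀ n : ℕ, 1 ≤ n →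
  Tendsto (fun p : ℝ => (2 * n + 2 - p) ^ (2 * n + 1) * LB2 n p) (𝓝[<] (2 * (n : ℝ) + 2))
    (𝓝 ((2 * n + 1) ^ (2 * n + 1) / sg n (2 * n + 2)))

/-- M2: the limit of the upper bound. -/
def U_M2 : Prop := ∀ n : ℕ, 1 ≤ n →
  Tendsto (fun p : ℝ => (2 * n + 2 - p) ^ (2 * n + 1) * UB n p 1) (𝓝[<] (2 * (n : ℝ) + 2))
    (𝓝 ((2 * n + 1) ^ (2 * n + 1) / sg n (2 * n + 2)))

/-- SQ: the value of `sg n Q`. -/
def U_SQ : Prop := ∀ n : ℕ, 1 ≤ n → sg n (2 * n + 2) =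
  2 * Real.pi ^ ((n : ℝ) + 1 / 2) * Real.Gamma (n + 1 / 2) /
    ((n.factorial : ℝ) * ((n - 1).factorial : ℝ))

/-- EX: existence of the optimal constant. -/
def U_EX : Prop := ∀ (𝕜 : Type) [RCLike 𝕜] (n : ℕ) (p L U : ℝ), 0 < L →
  SobolevIneq 𝕜 n p U → (∀ C, SobolevIneq 𝕜 n p C → L ≤ C) →
  ∃ C : ℝ, IsLeast {C : ℝ | SobolevIneq 𝕜 n p C} C ∧ L ≤ C ∧ C ≤ U

/-- First final statement. -/
def U_FI : Prop := ∃ A : ℝ, ∀ n : ℕ, 1 ≤ n → ∀ p : ℝ, 1 < p → p < 2 * n + 2 →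
  ∀ (𝕜 : Type) [RCLike 𝕜], ∃ C : ℝ, 0 < C ∧ IsLeast {C : ℝ | SobolevIneq 𝕜 n p C} C ∧
    |Real.log C - Real.log ((n / (Real.pi * Real.exp 1)) ^ (p / 2) * p ^ p /
      ((2 * n + 2) * (2 * n + 2 - p) ^ (p - 1)))| ≤ A * p * Real.log (n + 1) / n

/-- Second final statement. -/
def U_FII : Prop := ∀ n : ℕ, 1 ≤ n → ∀ (𝕜 : Type) [RCLike 𝕜], ∃ C : ℝ → ℝ,
  (∀ p : ℝ, 1 < p → p < 2 * n + 2 → IsLeast {c : ℝ | SobolevIneq 𝕜 n p c} (C p)) ∧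
  Tendsto (fun p : ℝ => (2 * n + 2 - p) ^ (2 * n + 1) * C p) (𝓝[<] (2 * (n : ℝ) + 2))
    (𝓝 ((2 * n + 1) ^ (2 * n + 1) * ((n.factorial : ℝ) * ((n - 1).factorial : ℝ)) /
      (2 * Real.pi ^ ((n : ℝ) + 1 / 2) * Real.Gamma (n + 1 / 2))))

end Pool.Agent.H93.HQ
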