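import Pool.Agent.H93.HQ.Targets

namespace Pool.Agent.H93.HQ
open MeasureTheory Set Filter Topology Pool.Agent.H80.HS
open scoped ContDiff ENNReal

/-- The main term near the critical exponent. -/
noncomputable def MC (n : ℕ) (p : ℝ) : ℝ :=
  (p - 1) * Real.log ((2 * n + 1) / (2 * n + 2 - p)) - Real.log (sg n (2 * n + 2))

/-- SL: `sg n` near `Q`. -/
def U_SL : Prop := ∀ n : ℕ, 1 ≤ n → ∀ s : ℝ, 2 * n + 1 ≤ s → s ≤ 2 * n + 2 →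
  sg n (2 * n + 2) ≤ sg n s ∧
  Real.log (sg n s) - Real.log (sg n (2 * n + 2)) ≤ 2 * n + 2 - s

/-- N4: the lower bound near the critical exponent. -/
def U_N4 : Prop := ∃ A : ℝ, ∀ n : ℕ, 1 ≤ n → ∀ p : ℝ, 2 * n + 1 ≤ p → p < 2 * n + 2 →
  0 < LB2 n p ∧
  MC n p - A * Real.log (n + 1) * (2 * n + 2 - p) ^ ((2 * (n : ℝ) + 1) / (2 * n + 2)) ≤
    Real.log (LB2 n p)

/-- N5: the upper bound near the critical exponent. -/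
def U_N5 : Prop := ∃ A : ℝ, ∀ n : ℕ, 1 ≤ n → ∀ p : ℝ, 2 * n + 1 ≤ p → p < 2 * n + 2 →
  0 < UB n p (sg n 0) ∧
  Real.log (UB n p (sg n 0)) ≤
    MC n p + A * Real.log (n + 1) * (2 * n + 2 - p) ^ ((2 * (n : ℝ) + 1) / (2 * n + 2))

/-- Third final statement. -/
def U_FIII : Prop := ∃ A : ℝ, ∀ n : ℕ, 1 ≤ n → ∀ p : ℝ, 2 * n + 1 ≤ p → p < 2 * n + 2 →
  ∀ (𝕜 : Type) [RCLike 𝕜], ∃ C : ℝ, 0 < C ∧ IsLeast {C : ℝ | SobolevIneq 𝕜 n p C} C ∧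
    |Real.log (C * (2 * Real.pi ^ ((n : ℝ) + 1 / 2) * Real.Gamma (n + 1 / 2) /
      ((n.factorial : ℝ) * ((n - 1).factorial : ℝ))) *
      ((2 * n + 2 - p) / (2 * n + 1)) ^ (p - 1))| ≤
    A * Real.log (n + 1) * (2 * n + 2 - p) ^ ((2 * (n : ℝ) + 1) / (2 * n + 2))

end Pool.Agent.H93.HQ
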